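import Pool.Agent.W840.CT.Pair
import Pool.Agent.TH795.EP2.Fin
import Pool.Agent.TH795.EP2.Est

/-!
Contacts of two disjoint walks, with the error `log ^ 2`.
-/

set_option autoImplicit false

namespace Pool.Agent.Y981.L2X.CP

open Pool.Agent.W840.CT

theorem cn_eq2 (n : ℕ) : (cn n : ℝ) = TH795.EP.c n := by
  rw [← TH795.EP2.card_walks n]
  rfl

theorem cn_upper2 : ∃ K : ℝ, 0 ≤ K ∧ ∀ N : ℕ, 2 ≤ N → ∀ k ≤ N,
    (cn k : ℝ) ≤ H981.mu ^ k * Real.exp (K * Real.log N ^ 2) := by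
  obtain ⟨K, hK, h, -⟩ := TH795.EP2.exists_K
  refine ⟨K, hK, fun N hN k hk => ?_⟩
  rw [cn_eq2]
  exact h N hN k hk

/-- conditionally on disjointness, few contacts -/
theorem tail_cond2 : ∃ K : ℝ, 0 < K ∧ ∀ n : ℕ, 2 ≤ n → ∀ x : ℝ, 0 ≤ x →
    (({q | SW n q.1 ∧ SW n q.2 ∧ DJ q.1 q.2 ∧ K * (Real.log n ^ 2 + x) ≤ CC q.1 q.2} :
      Set ((Fin (n + 1) → ℤ × ℤ) × (Fin (n + 1) → ℤ × ℤ))).ncard : ℝ) ≤
    Real.exp (-x) * (({q | SW n q.1 ∧ SW n q.2 ∧ DJ q.1 q.2} :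
      Set ((Fin (n + 1) → ℤ × ℤ) × (Fin (n + 1) → ℤ × ℤ))).ncard : ℝ) := by
  obtain ⟨c, C, hc, hC, h⟩ := tail_pair
  obtain ⟨K, hK, hu⟩ := cn_upper2
  set M := |Real.log C| with hM
  have hM0 : 0 ≤ M := abs_nonneg _
  have hCM : C ≤ Real.exp M := by
    rw [← Real.log_le_iff_le_exp hC]
    exact le_abs_self _
  refine ⟨(1 + 4 * M + 2 * K) / c, by positivity, fun n hn x hx => ?_⟩
  have hn' : (2 : ℝ) ≤ n := by exact_mod_cast hn
  set L := Real.log n with hL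
  have hlog2 : (0.69 : ℝ) < Real.log 2 := by
    have := Real.log_two_gt_d9
    linarith
  have hlogN : (0.69 : ℝ) < L := hlog2.trans_le (Real.log_le_log (by norm_num) hn')
  have hL2 : (0.47 : ℝ) ≤ L ^ 2 := by nlinarith
  have hL3 : (0.3 : ℝ) ≤ L ^ 2 := by linarith
  set J := ⌈(1 + 4 * M + 2 * K) / c * (L ^ 2 + x)⌉₊ with hJ
  have h1 := h n n J
  have hsub : ({q | SW n q.1 ∧ SW n q.2 ∧ DJ q.1 q.2 ∧
      (1 + 4 * M + 2 * K) / c * (L ^ 2 + x) ≤ CC q.1 q.2} :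
      Set ((Fin (n + 1) → ℤ × ℤ) × (Fin (n + 1) → ℤ × ℤ))) ⊆
      {q | SW n q.1 ∧ SW n q.2 ∧ DJ q.1 q.2 ∧ J ≤ CC q.1 q.2} := by
    rintro q ⟨a1, a2, a3, a4⟩
    exact ⟨a1, a2, a3, Nat.ceil_le.2 a4⟩
  have hfin : ({q | SW n q.1 ∧ SW n q.2 ∧ DJ q.1 q.2 ∧ J ≤ CC q.1 q.2} :
      Set ((Fin (n + 1) → ℤ × ℤ) × (Fin (n + 1) → ℤ × ℤ))).Finite :=
    ((SW_finite n).prod (SW_finite n)).subset (fun q hq => ⟨hq.1, hq.2.1⟩)
  have h2 := Set.ncard_le_ncard hsub hfin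
  have h2' : (({q | SW n q.1 ∧ SW n q.2 ∧ DJ q.1 q.2 ∧
      (1 + 4 * M + 2 * K) / c * (L ^ 2 + x) ≤ CC q.1 q.2} :
      Set ((Fin (n + 1) → ℤ × ℤ) × (Fin (n + 1) → ℤ × ℤ))).ncard : ℝ) ≤
      C * Real.exp (-(c * J)) * (cn n * cn n) := by
    refine le_trans ?_ h1
    exact_mod_cast h2
  refine h2'.trans ?_
  have h3 := hu n hn n le_rfl
  have h4 : (cn n : ℝ) * cn n ≤ Real.exp (2 * (K * L ^ 2)) * cn (n + n) := by
    calc (cn n : ℝ) * cn n ≤ (H981.mu ^ n * Real.exp (K * L ^ 2)) *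
          (H981.mu ^ n * Real.exp (K * L ^ 2)) := by
            refine mul_le_mul h3 h3 (by positivity) ?_
            have := mu_pos
            positivity
      _ = Real.exp (2 * (K * L ^ 2)) * H981.mu ^ (n + n) := by
          rw [two_mul, Real.exp_add, pow_add]; ring
      _ ≤ _ := mul_le_mul_of_nonneg_left (mu_pow_le_cn _) (Real.exp_pos _).le
  have h5 : (cn (n + n) : ℝ) ≤ (({q | SW n q.1 ∧ SW n q.2 ∧ DJ q.1 q.2} :
      Set ((Fin (n + 1) → ℤ × ℤ) × (Fin (n + 1) → ℤ × ℤ))).ncard : ℝ) := by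
    exact_mod_cast disj_ge n n
  have h6 : C * Real.exp (-(c * J)) ≤ Real.exp (-x) * Real.exp (-(2 * (K * L ^ 2))) := by
    calc C * Real.exp (-(c * J)) ≤ Real.exp M * Real.exp (-(c * J)) :=
          mul_le_mul_of_nonneg_right hCM (Real.exp_pos _).le
      _ = Real.exp (M + -(c * J)) := (Real.exp_add _ _).symm
      _ ≤ Real.exp (-x + -(2 * (K * L ^ 2))) := by
          refine Real.exp_le_exp.2 ?_
          have h7 : (1 + 4 * M + 2 * K) / c * (L ^ 2 + x) ≤ J := Nat.le_ceil _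
          have h8 : (1 + 4 * M + 2 * K) * (L ^ 2 + x) ≤ c * J := by
            calc (1 + 4 * M + 2 * K) * (L ^ 2 + x) =
                  c * ((1 + 4 * M + 2 * K) / c * (L ^ 2 + x)) := by field_simp
              _ ≤ c * J := mul_le_mul_of_nonneg_left h7 hc.le
          have h9 : 0 ≤ M * x := by positivity
          have h10 : 0 ≤ K * x := by positivity
          have h11 : M ≤ 4 * M * L ^ 2 := by nlinarith
          nlinarith
      _ = _ := Real.exp_add _ _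
  calc C * Real.exp (-(c * J)) * (cn n * cn n)
      ≤ (Real.exp (-x) * Real.exp (-(2 * (K * L ^ 2)))) *
        (Real.exp (2 * (K * L ^ 2)) * cn (n + n)) := by
        refine mul_le_mul h6 h4 (by positivity) (by positivity)
    _ = Real.exp (-x) * (Real.exp (-(2 * (K * L ^ 2))) * Real.exp (2 * (K * L ^ 2))) *
        cn (n + n) := by ring
    _ = Real.exp (-x) * cn (n + n) := by
        rw [← Real.exp_add, neg_add_cancel, Real.exp_zero, mul_one]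
    _ ≤ _ := mul_le_mul_of_nonneg_left h5 (Real.exp_pos _).le

end Pool.Agent.Y981.L2X.CP
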