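import Pool.Agent.Y981.L2X.Leg
import Pool.Agent.Y981.L2.Area5

/-! # Area and width of the polygons from the correlation length of the walk -/

set_option autoImplicit false

namespace Pool.Agent.Y981.L2X

open Pool.Agent.TH795.EP Pool.Agent.TH795.EP2 Pool.Agent.TH795.SE2 Pool.Agent.TH262.SawL Pool.Agent.Y981.L2 H981 Finset Filter Topology

theorem mass_two {e : ℝ} : Y981.L2.mass (2 * e) ≤ 2 * Y981.L2.mass e ∨ e < 0 := by
  rcases lt_or_ge e 0 with he | he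
  · exact Or.inr he
  · left
    unfold Y981.L2.mass
    apply csSup_le ⟨0, zero_mem (by linarith)⟩
    rintro h ⟨h0, hh⟩
    have h1 := psi_smul (h := h) (t := 1 / 2) h0 (by norm_num) (by norm_num)
    have h2 := Y981.L2.le_mass (e := e) (h := 1 / 2 * h) (by positivity) (by linarith)
    unfold Y981.L2.mass at h2
    linarith

theorem L4_ge {n : ℕ} (hn : 2 ≤ n) : (0.226 : ℝ) ≤ Real.log n ^ 2 := by
  have h5 : Real.log 2 ≤ Real.log n := log_ge hn
  have h6 := Real.log_two_gt_d9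
  have h7 : (0.69 : ℝ) ^ 2 ≤ Real.log n ^ 2 := pow_le_pow_left₀ (by norm_num) (by linarith) 2
  norm_num at h7
  linarith

/-- the tail of the width -/
theorem pw_upper : ∃ K : ℝ, 0 ≤ K ∧ ∀ n : ℕ, 2 ≤ n → ∀ k : ℕ, 1 ≤ k → k < n →
    pw n k ≤ Real.exp (K * Real.log n ^ 2 - 2 * k * Y981.L2.mass (1 / (2 * n))) := by
  obtain ⟨K, hK, h⟩ := pw_ldp
  refine ⟨K + 5, by positivity, fun n hn k hk hkn => ?_⟩
  have hn0 : (0 : ℝ) < n := by exact_mod_cast (by omega : 0 < n)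
  refine (h n hn k hk hkn).2.trans (Real.exp_le_exp.2 ?_)
  have hv0 : (0 : ℝ) ≤ (k : ℝ) / n := by positivity
  have hv1 : (k : ℝ) / n ≤ 1 := by
    rw [div_le_one hn0]
    exact_mod_cast hkn.le
  have h1 := mul_le_mul_of_nonneg_left
    (le_R hv0 hv1 (show 0 < 1 / (2 * (n : ℝ)) by positivity)) hn0.le
  have e1 : (n : ℝ) * ((k : ℝ) / n * Y981.L2.mass (1 / (2 * n)) - 1 / (2 * n)) =
      k * Y981.L2.mass (1 / (2 * n)) - 1 / 2 := by
    field_simp
  rw [e1] at h1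
  have h2 := L4_ge hn
  linarith

theorem par_one (n : ℕ) (hn : 1 ≤ n) (r : ℝ) : par n r ≤ 1 := by
  unfold par
  apply div_le_one_of_le₀ _ (Nat.cast_nonneg _)
  have h := Set.ncard_le_ncard
    (s := {f : ZMod (2 * n) → ℤ × ℤ | IsLoop (2 * n) f ∧ r ≤ area (2 * n) f})
    (t := {f : ZMod (2 * n) → ℤ × ℤ | IsLoop (2 * n) f}) (fun f hf => hf.1) (loops_finite hn)
  exact_mod_cast h

/-- **The mean area.** -/
theorem area_mean : ∃ K : ℝ, 0 ≤ K ∧ ∀ n : ℕ, 2 ≤ n →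
    ma n ≤ K * (1 / Y981.L2.mass (1 / (2 * n))) ^ 2 * Real.log n ^ 4 := by
  obtain ⟨K, hK, hpw⟩ := pw_upper
  obtain ⟨K0, -, hw⟩ := ln_le
  obtain ⟨B, hB⟩ : ∃ B, B = Y981.L2.mass 1 := ⟨_, rfl⟩
  refine ⟨4 * (K + 20 + 5 * B) ^ 2 + 200 * B ^ 2, by positivity, fun n hn => ?_⟩
  have hn0 : (0 : ℝ) < n := by exact_mod_cast (by omega : 0 < n)
  have hn1 : (1 : ℝ) ≤ n := by exact_mod_cast (by omega : 1 ≤ n)
  have hm : 0 < Y981.L2.mass (1 / (2 * (n : ℝ))) := Y981.L2.mass_pos (by positivity)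
  have hmB : Y981.L2.mass (1 / (2 * (n : ℝ))) ≤ B := by
    rw [hB]
    refine Y981.L2.mass_mono (by positivity) ?_
    rw [div_le_one (by positivity)]
    linarith
  obtain ⟨m, hmm⟩ : ∃ m, m = Y981.L2.mass (1 / (2 * (n : ℝ))) := ⟨_, rfl⟩
  rw [← hmm] at hm hmB ⊢
  obtain ⟨L, hL⟩ : ∃ L, L = Real.log (n : ℝ) ^ 2 := ⟨_, rfl⟩
  have hL0 : (0.226 : ℝ) ≤ L := by rw [hL]; exact L4_ge hn
  have e8 : Real.log (n : ℝ) ^ 4 = L ^ 2 := by rw [hL]; ring
  rw [e8]
  obtain ⟨hl, -⟩ := hw n hn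
  obtain ⟨Y, hY⟩ : ∃ Y, Y = L / m := ⟨_, rfl⟩
  have hY0 : 0 < Y := by rw [hY]; positivity
  have hBY : 1 ≤ 5 * B * Y := by
    rw [hY]
    have h1 : 1 ≤ 5 * L := by linarith
    have h2 : 5 * B * (L / m) = (B / m) * (5 * L) := by ring
    rw [h2]
    exact one_le_mul_of_one_le_of_one_le (by rw [le_div_iff₀ hm]; linarith) h1
  have hfin : (1 / m) ^ 2 * L ^ 2 = Y ^ 2 := by rw [hY]; ring
  have hgoal : (4 * (K + 20 + 5 * B) ^ 2 + 200 * B ^ 2) * (1 / m) ^ 2 * L ^ 2 =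
      4 * ((K + 20 + 5 * B) * Y) ^ 2 + 8 * (5 * B * Y) ^ 2 := by
    rw [mul_assoc, hfin]
    ring
  rw [hgoal]
  have hB8 : 8 ≤ 8 * (5 * B * Y) ^ 2 := by nlinarith
  obtain ⟨k, hk⟩ : ∃ k, k = ⌈(K + 20) * Y⌉₊ := ⟨_, rfl⟩
  have hk1 : (K + 20) * Y ≤ k := by rw [hk]; exact Nat.le_ceil _
  have hk2 : (k : ℝ) ≤ (K + 20 + 5 * B) * Y := by
    have h1 : (k : ℝ) < (K + 20) * Y + 1 := by rw [hk]; exact Nat.ceil_lt_add_one (by positivity)
    linarith
  have hk0 : (0 : ℝ) < k := lt_of_lt_of_le (by positivity) hk1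
  have hk0' : 1 ≤ k := by exact_mod_cast hk0
  have hkk : (k : ℝ) ^ 2 ≤ ((K + 20 + 5 * B) * Y) ^ 2 := pow_le_pow_left₀ hk0.le hk2 2
  rcases lt_or_ge k n with hkn | hkn
  · have h1 := ma_le (n := n) (by omega) (r := (k : ℝ) ^ 2) (by positivity) hl
    have h2 := par_le (n := n) (by omega) (r := (k : ℝ)) hk0.le
    have h3 := hpw n hn k hk0' hkn
    rw [← hmm, ← hL] at h3
    have h4 : K * L - 2 * k * m ≤ -(2 * Real.log n) - 2 := by
      have h5 : (K + 20) * L ≤ k * m := by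
        have := mul_le_mul_of_nonneg_right hk1 hm.le
        rw [hY] at this
        have e : (K + 20) * (L / m) * m = (K + 20) * L := by field_simp
        linarith
      have h6 := (pow_le_four hn).2
      rw [← hL] at h6
      nlinarith
    have h5 : pw n k ≤ Real.exp (-(2 * Real.log n)) * (1 / 4) := by
      refine (h3.trans (Real.exp_le_exp.2 h4)).trans ?_
      rw [sub_eq_add_neg, Real.exp_add]
      apply mul_le_mul_of_nonneg_left _ (Real.exp_pos _).le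
      rw [Real.exp_neg, one_div]
      apply inv_anti₀ (by norm_num)
      have h6 := Real.exp_one_gt_d9
      have h7 : Real.exp 2 = Real.exp 1 * Real.exp 1 := by rw [← Real.exp_add]; norm_num
      rw [h7]
      nlinarith
    have h6 : Real.exp (-(2 * Real.log n)) = ((n : ℝ) ^ 2)⁻¹ := by
      rw [Real.exp_neg, mul_comm, Real.exp_mul, Real.exp_log hn0]
      norm_num
    rw [h6] at h5
    have h7 : 4 * (n : ℝ) ^ 2 * par n ((k : ℝ) ^ 2) ≤ 2 := by
      calc 4 * (n : ℝ) ^ 2 * par n ((k : ℝ) ^ 2)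
          ≤ 4 * (n : ℝ) ^ 2 * (2 * (((n : ℝ) ^ 2)⁻¹ * (1 / 4))) := by
            apply mul_le_mul_of_nonneg_left _ (by positivity)
            linarith
        _ = 2 := by field_simp
    linarith [sq_nonneg ((K + 20 + 5 * B) * Y)]
  · have h1 := ma_le (n := n) (by omega) (r := 0) le_rfl hl
    have h2 := par_one n (by omega) 0
    have h3 : (n : ℝ) ^ 2 ≤ (k : ℝ) ^ 2 :=
      pow_le_pow_left₀ hn0.le (by exact_mod_cast hkn) 2
    have h4 : 4 * (n : ℝ) ^ 2 * par n 0 ≤ 4 * (n : ℝ) ^ 2 * 1 :=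
      mul_le_mul_of_nonneg_left h2 (by positivity)
    linarith

/-- the lower bound for the tail of the area -/
theorem area_tail : ∃ K : ℝ, 0 ≤ K ∧ ∀ n : ℕ, 2 ≤ n → ∀ k : ℕ, 1 ≤ k → 2 * k < n →
    (k : ℝ) * Y981.L2.mass (1 / (2 * n)) ≤ 1 / 8 →
    Real.exp (-(K * Real.log n ^ 2)) ≤ par n ((k : ℝ) ^ 2) := by
  obtain ⟨K, hK, h⟩ := area_lower
  refine ⟨K + 20, by positivity, fun n hn k hk hkn hkm => ?_⟩
  have hn0 : (0 : ℝ) < n := by exact_mod_cast (by omega : 0 < n)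
  have hk0 : (0 : ℝ) < k := by exact_mod_cast hk
  refine le_trans (Real.exp_le_exp.2 ?_) (h n hn k hk hkn)
  have hL := L4_ge hn
  have hR : n * R (2 * (k : ℝ) / n) ≤ 1 := by
    by_contra hcon
    push Not at hcon
    have hv0 : (0 : ℝ) < 2 * (k : ℝ) / n := by positivity
    have hv1 : 2 * (k : ℝ) / n ≤ 1 := by
      rw [div_le_one hn0]
      exact_mod_cast hkn.le
    have h5 : 1 / (n : ℝ) ≤ R (2 * (k : ℝ) / n) := by
      rw [div_le_iff₀ hn0]
      linarith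
    have h6 := psi_le_of_R hv0 hv1 (by positivity) h5
    have h7 := Y981.L2.le_mass (by positivity) h6
    have e1 : 1 / (n : ℝ) / (2 * (k : ℝ) / n) = 1 / (2 * k) := by field_simp
    rw [e1] at h7
    have h9 : Y981.L2.mass (1 / (n : ℝ)) ≤ 2 * Y981.L2.mass (1 / (2 * (n : ℝ))) := by
      have e2 : 1 / (n : ℝ) = 2 * (1 / (2 * (n : ℝ))) := by field_simp
      rw [e2]
      rcases mass_two (e := 1 / (2 * (n : ℝ))) with h | h
      · exact h
      · have : 0 < 1 / (2 * (n : ℝ)) := by positivity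
        linarith
    have h10 := h7.trans h9
    rw [div_le_iff₀ (by positivity)] at h10
    linarith
  linarith

end Pool.Agent.Y981.L2X
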