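import Pool.Agent.Y981.L2X.Poly

/-! # Width of the polygons from the correlation length of the walk -/

set_option autoImplicit false

namespace Pool.Agent.Y981.L2X

open Pool.Agent.TH795.EP Pool.Agent.TH795.EP2 Pool.Agent.TH795.SE2 Pool.Agent.TH262.SawL Pool.Agent.Y981.L2 H981 Finset Filter Topology

/-- **The law of the width**, in terms of the mass. -/
theorem pw_legendre : ∃ K : ℝ, 0 ≤ K ∧ ∀ n : ℕ, 2 ≤ n → ∀ k : ℕ, 1 ≤ k → k < n →
    (∀ e : ℝ, 0 < e → Real.log (pw n k) ≤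
      -(2 * k * Y981.L2.mass e - 2 * n * e) + K * Real.log n ^ 2) ∧
    (∃ e : ℝ, 0 < e ∧ -(2 * k * Y981.L2.mass e - 2 * n * e) - K * Real.log n ^ 2 ≤
      Real.log (pw n k)) := by
  obtain ⟨K, hK, hp⟩ := pw_ldp
  refine ⟨K + 1, by positivity, fun n hn k hk hkn => ?_⟩
  have hn0 : (0 : ℝ) < n := by exact_mod_cast (by omega : 0 < n)
  obtain ⟨h1, h2⟩ := hp n hn k hk hkn
  have hpos : 0 < pw n k := lt_of_lt_of_le (Real.exp_pos _) h1
  rw [← Real.le_log_iff_exp_le hpos] at h1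
  rw [← Real.log_le_iff_le_exp hpos] at h2
  have hv0 : (0 : ℝ) ≤ (k : ℝ) / n := by positivity
  have hv1 : (k : ℝ) / n ≤ 1 := by
    rw [div_le_one hn0]
    exact_mod_cast hkn.le
  have hL := L4_ge hn
  constructor
  · intro e he
    have h3 := mul_le_mul_of_nonneg_left (le_R hv0 hv1 he) hn0.le
    have e1 : (n : ℝ) * ((k : ℝ) / n * Y981.L2.mass e - e) =
        k * Y981.L2.mass e - n * e := by
      field_simp
    rw [e1] at h3
    linarith
  · obtain ⟨e, he, h3⟩ := R_le_exists (v := (k : ℝ) / n) (d := Real.log (n : ℝ) ^ 2 / (2 * n)) hv0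
      (by positivity)
    refine ⟨e, he, ?_⟩
    have h4 := mul_le_mul_of_nonneg_left h3 hn0.le
    have e1 : (n : ℝ) * ((k : ℝ) / n * Y981.L2.mass e - e) =
        k * Y981.L2.mass e - n * e := by
      field_simp
    have e2 : (n : ℝ) * (R ((k : ℝ) / n) - Real.log (n : ℝ) ^ 2 / (2 * n)) =
        n * R ((k : ℝ) / n) - Real.log (n : ℝ) ^ 2 / 2 := by
      field_simp
    rw [e1, e2] at h4
    linarith

theorem pw_one (n : ℕ) (hn : 1 ≤ n) (r : ℝ) : pw n r ≤ 1 := by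
  unfold pw
  apply div_le_one_of_le₀ _ (Nat.cast_nonneg _)
  have h := Set.ncard_le_ncard
    (s := {f : ZMod (2 * n) → ℤ × ℤ | IsLoop (2 * n) f ∧ r ≤ width (2 * n) f})
    (t := {f : ZMod (2 * n) → ℤ × ℤ | IsLoop (2 * n) f}) (fun f hf => hf.1) (loops_finite hn)
  exact_mod_cast h

/-- **The mean width.** -/
theorem width_mean : ∃ K : ℝ, 0 ≤ K ∧ ∀ n : ℕ, 2 ≤ n →
    mw n ≤ K * (1 / Y981.L2.mass (1 / (2 * n))) * Real.log n ^ 2 := by
  obtain ⟨K, hK, hpw⟩ := pw_upper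
  obtain ⟨K0, -, hw⟩ := ln_le
  obtain ⟨B, hB⟩ : ∃ B, B = Y981.L2.mass 1 := ⟨_, rfl⟩
  refine ⟨2 * (K + 20 + 5 * B) + 5 * B, by
    have hB0 : 0 < B := by rw [hB]; exact Y981.L2.mass_pos one_pos
    positivity, fun n hn => ?_⟩
  have hn0 : (0 : ℝ) < n := by exact_mod_cast (by omega : 0 < n)
  have hn1 : (1 : ℝ) ≤ n := by exact_mod_cast (by omega : 1 ≤ n)
  have hm : 0 < Y981.L2.mass (1 / (2 * (n : ℝ))) := Y981.L2.mass_pos (by positivity)
  have hmB : Y981.L2.mass (1 / (2 * (n : ℝ))) ≤ B := by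
    rw [hB]
    refine Y981.L2.mass_mono (by positivity) ?_
    rw [div_le_one (by positivity)]
    linarith
  obtain ⟨m, hmm⟩ : ∃ m, m = Y981.L2.mass (1 / (2 * (n : ℝ))) := ⟨_, rfl⟩
  rw [← hmm] at hm hmB ⊢
  obtain ⟨L, hL⟩ : ∃ L, L = Real.log (n : ℝ) ^ 2 := ⟨_, rfl⟩
  have hL0 : (0.226 : ℝ) ≤ L := by rw [hL]; exact L4_ge hn
  rw [← hL]
  obtain ⟨hl, -⟩ := hw n hn
  obtain ⟨Y, hY⟩ : ∃ Y, Y = L / m := ⟨_, rfl⟩
  have hY0 : 0 < Y := by rw [hY]; positivity
  have hBY : 1 ≤ 5 * B * Y := by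
    rw [hY]
    have h1 : 1 ≤ 5 * L := by linarith
    have h2 : 5 * B * (L / m) = (B / m) * (5 * L) := by ring
    rw [h2]
    exact one_le_mul_of_one_le_of_one_le (by rw [le_div_iff₀ hm]; linarith) h1
  have hgoal : (2 * (K + 20 + 5 * B) + 5 * B) * (1 / m) * L =
      2 * ((K + 20 + 5 * B) * Y) + 5 * B * Y := by
    rw [hY]
    ring
  rw [hgoal]
  obtain ⟨k, hk⟩ : ∃ k, k = ⌈(K + 20) * Y⌉₊ := ⟨_, rfl⟩
  have hk1 : (K + 20) * Y ≤ k := by rw [hk]; exact Nat.le_ceil _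
  have hk2 : (k : ℝ) ≤ (K + 20 + 5 * B) * Y := by
    have h1 : (k : ℝ) < (K + 20) * Y + 1 := by rw [hk]; exact Nat.ceil_lt_add_one (by positivity)
    linarith
  have hk0 : (0 : ℝ) < k := lt_of_lt_of_le (by positivity) hk1
  have hk0' : 1 ≤ k := by exact_mod_cast hk0
  rcases lt_or_ge k n with hkn | hkn
  · have h1 := mw_le (n := n) (by omega) (r := (k : ℝ)) (by positivity) hl
    have h3 := hpw n hn k hk0' hkn
    rw [← hmm, ← hL] at h3
    have h4 : K * L - 2 * k * m ≤ -Real.log n - 1 := by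
      have h5 : (K + 20) * L ≤ k * m := by
        have := mul_le_mul_of_nonneg_right hk1 hm.le
        rw [hY] at this
        have e : (K + 20) * (L / m) * m = (K + 20) * L := by field_simp
        linarith
      have h6 := (pow_le_four hn).2
      rw [← hL] at h6
      have h7 : 0 ≤ K * L := by positivity
      nlinarith
    have h5 : pw n k ≤ (n : ℝ)⁻¹ * (1 / 2) := by
      refine (h3.trans (Real.exp_le_exp.2 h4)).trans ?_
      rw [sub_eq_add_neg, Real.exp_add, Real.exp_neg (Real.log n), Real.exp_log hn0]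
      apply mul_le_mul_of_nonneg_left _ (by positivity)
      rw [Real.exp_neg, one_div]
      apply inv_anti₀ (by norm_num)
      have h6 := Real.exp_one_gt_d9
      linarith
    have h7 : 2 * (n : ℝ) * pw n k ≤ 1 := by
      calc 2 * (n : ℝ) * pw n k ≤ 2 * (n : ℝ) * ((n : ℝ)⁻¹ * (1 / 2)) :=
            mul_le_mul_of_nonneg_left h5 (by positivity)
        _ = 1 := by field_simp
    have h8 : 0 < (K + 20 + 5 * B) * Y := lt_of_lt_of_le hk0 hk2
    linarith
  · have h1 := mw_le (n := n) (by omega) (r := 0) le_rfl hl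
    have h2 := pw_one n (by omega) 0
    have h3 : (n : ℝ) ≤ k := by exact_mod_cast hkn
    have h4 : 2 * (n : ℝ) * pw n 0 ≤ 2 * (n : ℝ) * 1 :=
      mul_le_mul_of_nonneg_left h2 (by positivity)
    linarith

end Pool.Agent.Y981.L2X
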